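import Mathlib

/-!
# The asymptotic Erdős matching conjecture for `k ≤ 5`: Mathlib-only statements (project K5)
-/

set_option autoImplicit false

namespace Pool.Agent.W205.K5

open Finset Filter Topology

/-- abstract system: `w r = P(S_{k-r} < k)`, `g r = E (k - S_{k-r})^+` (variables of mean one) -/
structure Sys (k : ℕ) (w g : ℕ → ℝ) : Prop where
  wk : w k = 1
  gk : g k = k
  w0 : ∀ r ≤ k, 0 < w r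
  w1 : ∀ r ≤ k, w r ≤ 1
  gp : ∀ r ≤ k, 0 < g r
  add : ∀ r < k, g (r + 1) ≤ g r + w (r + 1)
  jen : ∀ r ≤ k, (r : ℝ) ≤ g r
  top : ∀ r ≤ k, g r ≤ k * w r
  ch : ∀ r n : ℕ, r ≤ n → n < k → (n : ℝ) * w r ≤ g r → g r ≤ (n + 1) * w r →
    (n : ℝ) * (1 - w r / g r) ^ (n - r) ≤ g r

/-- `t^e (C - t)` on an interval is at least its minimum at the end points -/
def S_UNI : Prop := ∀ (e : ℕ) (a t b C β : ℝ), 0 ≤ a → a ≤ t → t ≤ b → 0 ≤ β →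
  β ≤ a ^ e * (C - a) → β ≤ b ^ e * (C - b) → β ≤ t ^ e * (C - t)

/-- lines below the curve, level `r ≥ 1` -/
def S_LINE : Prop := ∀ (k : ℕ) (w g : ℕ → ℝ), Sys k w g → ∀ (r : ℕ) (σ β : ℝ), 1 ≤ r → r < k → 0 ≤ σ →
  0 ≤ β → (∀ n : ℕ, r ≤ n → n ≤ k → β ≤ (1 - 1 / (n : ℝ)) ^ (n - r) * (1 + σ * n)) →
  β ≤ w r + σ * g r

/-- `K_0(m) = m (1-1/m)^m` -/
noncomputable def KK (m : ℕ) : ℝ := m * (1 - 1 / (m : ℝ)) ^ m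

/-- chords below the curve, level `0`: `w 0` is at least the linear interpolation of
`(1-1/m)^m`, `(1-1/(m+1))^(m+1)` between `KK m` and `KK (m+1)` -/
def S_CHORD : Prop := ∀ (k : ℕ) (w g : ℕ → ℝ), k ≤ 5 → Sys k w g → ∀ m : ℕ, 1 ≤ m → m < k →
  KK m ≤ g 0 → g 0 ≤ KK (m + 1) →
  (1 - 1 / (m : ℝ)) ^ m * (KK (m + 1) - g 0) +
    (1 - 1 / ((m : ℝ) + 1)) ^ (m + 1) * (g 0 - KK m) ≤ w 0 * (KK (m + 1) - KK m)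

/-- level `0`, last piece -/
def S_LAST : Prop := ∀ (k : ℕ) (w g : ℕ → ℝ), 2 ≤ k → Sys k w g → KK k ≤ g 0 →
  (1 - 1 / (k : ℝ)) ^ k ≤ w 0

/-- the thinned sum -/
noncomputable def Th (k : ℕ) (ρ : ℝ) (u : ℕ → ℝ) : ℝ :=
  ∑ j ∈ range (k + 1), (k.choose j : ℝ) * (1 - ρ) ^ (k - j) * ρ ^ j * u j

/-- the inequality at the crossing for systems; `u j = w (k - j)` -/
def PURE (k : ℕ) : Prop := ∀ (w g : ℕ → ℝ), Sys k w g → ∀ ρ : ℝ, 0 < ρ → ρ < 1 →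
  ρ ^ k + (1 - ρ / k) ^ k = 1 → 1 - ρ ^ k ≤ Th k ρ (fun j => w (k - j))

/-- one piece of `PURE k` -/
def PIECE (k m : ℕ) : Prop := ∀ (w g : ℕ → ℝ), Sys k w g → KK m ≤ g 0 → g 0 ≤ KK (m + 1) →
  ∀ ρ : ℝ, 0 < ρ → ρ < 1 → ρ ^ k + (1 - ρ / k) ^ k = 1 → 1 - ρ ^ k ≤ Th k ρ (fun j => w (k - j))

/-- last piece of `PURE k` -/
def PLAST (k : ℕ) : Prop := ∀ (w g : ℕ → ℝ), Sys k w g → KK k ≤ g 0 →
  ∀ ρ : ℝ, 0 < ρ → ρ < 1 → ρ ^ k + (1 - ρ / k) ^ k = 1 → 1 - ρ ^ k ≤ Th k ρ (fun j => w (k - j))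

/-- crossing reduction for sequences -/
def S_CRS : Prop := ∀ (k : ℕ) (u : ℕ → ℝ) (ρc : ℝ), 2 ≤ k → u 0 = 1 → (∀ j, 0 ≤ u j ∧ u j ≤ 1) →
  (∀ j : ℕ, 1 ≤ j → j < k → u (j + 1) ^ j ≤ u j ^ (j + 1)) → 0 < ρc → ρc < 1 →
  ρc ^ k + (1 - ρc / k) ^ k = 1 → 1 - ρc ^ k ≤ Th k ρc u →
  ∀ ρ : ℝ, 0 ≤ ρ → ρ ≤ 1 → min (1 - ρ ^ k) ((1 - ρ / k) ^ k) ≤ Th k ρ u

/-- existence of the crossing -/
def S_ROOT : Prop := ∀ k : ℕ, 2 ≤ k → ∃ ρ : ℝ, 0 < ρ ∧ ρ < 1 ∧ ρ ^ k + (1 - ρ / k) ^ k = 1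

end Pool.Agent.W205.K5
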