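import Mathlib
import Pool.Agent.W593.IR.Stm2
import Pool.Agent.W205.K5.Stm0

/-!
# The asymptotic Erdős matching conjecture for `k ≤ 5`: statements (project K5)

`a`, `b`, `q` are two-point data: the `i`-th variable has the values `a i` and `a i + b i` (the latter
with probability `q i`), its mean is `1/k`; the threshold is `1`. `Wn a b q j = P(first j sum < 1)`,
`Gn a b q j = E (1 - first j sum)^+`.
-/

set_option autoImplicit false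

namespace Pool.Agent.W205.K5

open Finset Pool.Agent.W890.SF Pool.Agent.W593.IR Filter Topology

/-- the chain inequality with an integral number of steps -/
def S_CHX : Prop := ∀ (ι : Type) [DecidableEq ι] (b q : ι → ℝ) (c x w : ℝ) (n : ℕ) (S : Finset ι),
  0 < c → (∀ i ∈ S, 0 < b i ∧ 0 ≤ q i ∧ q i < 1) → (∀ i ∈ S, b i * q i ≤ x) → 0 < x → x ≤ w →
  w * PU b q c S ≤ PG b q c S → 0 ≤ c - ∑ i ∈ S, b i * q i →
  c - ∑ i ∈ S, b i * q i + n * x ≤ w → w ≤ c - ∑ i ∈ S, b i * q i + (n + 1) * x →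
  (c - ∑ i ∈ S, b i * q i + n * x) * (1 - x / w) ^ n ≤ PG b q c S

/-- `P(X_0 + ... + X_{j-1} < 1)` -/
noncomputable def Wn (a b q : ℕ → ℝ) (j : ℕ) : ℝ :=
  PP (fun i : Fin j => a i) (fun i : Fin j => b i) (fun i : Fin j => q i)

/-- `E (1 - (X_0 + ... + X_{j-1}))^+` -/
noncomputable def Gn (a b q : ℕ → ℝ) (j : ℕ) : ℝ :=
  PG (fun i : Fin j => b i) (fun i : Fin j => q i) (1 - ∑ i : Fin j, a i) univ

/-- two-point data of length `k` and mean `1/k` -/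
def TD (k : ℕ) (a b q : ℕ → ℝ) : Prop :=
  ∀ i < k, 0 ≤ a i ∧ 0 < b i ∧ 0 ≤ q i ∧ q i < 1 ∧ a i + b i * q i = 1 / (k : ℝ)

/-- two-point data give a system, except in the constant case -/
def S_SYS : Prop := ∀ k : ℕ, 2 ≤ k → ∀ a b q : ℕ → ℝ, TD k a b q →
  Sys k (fun r => Wn a b q (k - r)) (fun r => k * Gn a b q (k - r)) ∨
  (Wn a b q k = 0 ∧ ∀ j < k, Wn a b q j = 1)

/-- the inequality at the crossing for two-point data -/
def TWO (k : ℕ) : Prop := ∀ a b q : ℕ → ℝ, TD k a b q → ∀ ρ : ℝ, 0 < ρ → ρ < 1 →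
  ρ ^ k + (1 - ρ / k) ^ k = 1 → 1 - ρ ^ k ≤ Th k ρ (Wn a b q)

/-- the inequality at the crossing for i.i.d. variables -/
def IID (k : ℕ) : Prop := ∀ (V : Type) [Fintype V] [Nonempty V] (y : V → ℝ), (∀ v, 0 ≤ y v) →
  (k : ℝ) * ∑ v, y v = (Fintype.card V : ℝ) → ∀ ρ : ℝ, 0 < ρ → ρ < 1 →
  ρ ^ k + (1 - ρ / k) ^ k = 1 → 1 - ρ ^ k ≤ Th k ρ (fun j => (NL y j : ℝ) / (Fintype.card V : ℝ) ^ j)

/-- the inequality for all `ρ` -/
def ALL (k : ℕ) : Prop := ∀ (V : Type) [Fintype V] [Nonempty V] (y : V → ℝ), (∀ v, 0 ≤ y v) →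
  (k : ℝ) * ∑ v, y v = (Fintype.card V : ℝ) → ∀ ρ : ℝ, 0 ≤ ρ → ρ ≤ 1 →
  min (1 - ρ ^ k) ((1 - ρ / k) ^ k) ≤ Th k ρ (fun j => (NL y j : ℝ) / (Fintype.card V : ℝ) ^ j)

def S_TWOIID : Prop := ∀ k : ℕ, 2 ≤ k → TWO k → IID k

def S_ALLIB : Prop := ∀ k : ℕ, 2 ≤ k → ALL k → ∀ x : ℝ, 0 < x → k * x < 1 → IB k x

end Pool.Agent.W205.K5
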