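import Pool.Agent.W593.IR.All
import Pool.Agent.W205.K5.Stm
import Pool.Agent.W958.K5.UNI
import Pool.Agent.W589.K5.LINE
import Pool.Agent.W511.K5.CHORD
import Pool.Agent.W152.K5.PLAST
import Pool.Agent.W944.K5.P21
import Pool.Agent.W514.K5.P31
import Pool.Agent.W981.K5.P32
import Pool.Agent.W487.K5.P41
import Pool.Agent.W489.K5.P42
import Pool.Agent.W362.K5.P43
import Pool.Agent.W390.K5.P51
import Pool.Agent.W408.K5.P52
import Pool.Agent.W279.K5.P53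
import Pool.Agent.W681.K5.P54
import Pool.Agent.W170.K5.PUR
import Pool.Agent.W104.K5.CRS
import Pool.Agent.W171.K5.CHX
import Pool.Agent.W834.K5.SYS
import Pool.Agent.W24.K5.TWO
import Pool.Agent.W654.K5.TWOIID
import Pool.Agent.W421.K5.ALLIB

/-!
# The asymptotic Erdős matching conjecture for `k ≤ 5`: all steps together (project K5)
-/

set_option autoImplicit false

namespace Pool.Agent.W205.K5

open Finset Pool.Agent.W890.SF Pool.Agent.W593.IR Filter Topology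

theorem t_UNI : S_UNI := Pool.Agent.W958.K5.uni
theorem t_LINE : S_LINE := Pool.Agent.W589.K5.line t_UNI
theorem t_LAST : S_LAST := Pool.Agent.W511.K5.last
theorem t_CHORD : S_CHORD := Pool.Agent.W511.K5.chord t_UNI
theorem t_PLAST : ∀ k, 2 ≤ k → k ≤ 5 → PLAST k := Pool.Agent.W152.K5.plast t_LINE t_LAST
theorem t_P21 : PIECE 2 1 := Pool.Agent.W944.K5.piece21 t_LINE t_CHORD
theorem t_P31 : PIECE 3 1 := Pool.Agent.W514.K5.piece31 t_LINE t_CHORD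
theorem t_P32 : PIECE 3 2 := Pool.Agent.W981.K5.piece32 t_LINE t_CHORD
theorem t_P41 : PIECE 4 1 := Pool.Agent.W487.K5.piece41 t_LINE t_CHORD
theorem t_P42 : PIECE 4 2 := Pool.Agent.W489.K5.piece42 t_LINE t_CHORD
theorem t_P43 : PIECE 4 3 := Pool.Agent.W362.K5.piece43 t_LINE t_CHORD
theorem t_P51 : PIECE 5 1 := Pool.Agent.W390.K5.piece51 t_LINE t_CHORD
theorem t_P52 : PIECE 5 2 := Pool.Agent.W408.K5.piece52 t_LINE t_CHORD
theorem t_P53 : PIECE 5 3 := Pool.Agent.W279.K5.piece53 t_LINE t_CHORD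
theorem t_P54 : PIECE 5 4 := Pool.Agent.W681.K5.piece54 t_LINE t_CHORD

theorem t_PURE : ∀ k, 2 ≤ k → k ≤ 5 → PURE k := by
  intro k h2 h5
  interval_cases k
  · exact Pool.Agent.W170.K5.pur2 t_P21 (t_PLAST 2 (by norm_num) (by norm_num))
  · exact Pool.Agent.W170.K5.pur3 t_P31 t_P32 (t_PLAST 3 (by norm_num) (by norm_num))
  · exact Pool.Agent.W170.K5.pur4 t_P41 t_P42 t_P43 (t_PLAST 4 (by norm_num) (by norm_num))
  · exact Pool.Agent.W170.K5.pur5 t_P51 t_P52 t_P53 t_P54 (t_PLAST 5 (by norm_num) (by norm_num))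

theorem t_ROOT : S_ROOT := Pool.Agent.W170.K5.root
theorem t_CRS : S_CRS := Pool.Agent.W104.K5.crs
theorem t_CHX : S_CHX := Pool.Agent.W171.K5.chx t_BAS t_ADD t_KEY
theorem t_SYS : S_SYS := Pool.Agent.W834.K5.sys t_CHX t_BAS t_GW
theorem t_TWO (k : ℕ) (h2 : 2 ≤ k) (h5 : k ≤ 5) : TWO k :=
  Pool.Agent.W24.K5.two t_SYS k h2 (t_PURE k h2 h5)
theorem t_TWOIID : S_TWOIID := Pool.Agent.W654.K5.twoiid t_MIX1 t_MIX2
theorem t_IID (k : ℕ) (h2 : 2 ≤ k) (h5 : k ≤ 5) : IID k := t_TWOIID k h2 (t_TWO k h2 h5)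
theorem t_ALLk (k : ℕ) (h2 : 2 ≤ k) (h5 : k ≤ 5) : ALL k :=
  Pool.Agent.W24.K5.all t_CRS t_ROOT t_LW k h2 (t_IID k h2 h5)
theorem t_ALLIB : S_ALLIB := Pool.Agent.W421.K5.allib t_CNT

/-- the upper bound, `k ≤ 5`, all `x` -/
theorem ub5 (k : ℕ) (h2 : 2 ≤ k) (h5 : k ≤ 5) (x : ℝ) (hx : 0 < x) (hx1 : x ≤ 1 / (k : ℝ)) :
    x = 1 / (k : ℝ) ∨ ((k : ℝ) * x < 1 ∧ UBS k x) := by
  rcases hx1.lt_or_eq with hlt | heq
  · right
    have hk0 : (0 : ℝ) < k := by positivity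
    have h1 : (k : ℝ) * x < 1 := by
      rw [lt_div_iff₀ hk0] at hlt
      linarith
    exact ⟨h1, t_CLG k h2 x hx h1 (t_ALLIB k h2 (t_ALLk k h2 h5) x hx h1)⟩
  · exact Or.inl heq

end Pool.Agent.W205.K5
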